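import Mathlib
import Pool.Agent.H88.WR.Targets

/-!
A new norm on the range.
-/

set_option autoImplicit false

open Filter Topology Set Pool.Agent.H85.WMP Pool.Agent.H88.WR

namespace Pool.Agent.H42.WR

/-- a copy of the space -/
def Cp (F : Type) : Type := F

instance (F : Type) [AddCommGroup F] : AddCommGroup (Cp F) := inferInstanceAs (AddCommGroup F)

instance (𝕜 : Type) [RCLike 𝕜] (F : Type) [AddCommGroup F] [Module 𝕜 F] : Module 𝕜 (Cp F) :=
  inferInstanceAs (Module 𝕜 F)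

/-- the identity -/
def toCp (𝕜 : Type) [RCLike 𝕜] (F : Type) [AddCommGroup F] [Module 𝕜 F] : Cp F ≃ₗ[𝕜] F :=
  LinearEquiv.refl 𝕜 F

/-- an equivalent norm is the norm of an isomorphic space -/
theorem newnorm (𝕜 : Type) [RCLike 𝕜] (F : Type) [NormedAddCommGroup F] [NormedSpace 𝕜 F]
    (p : F → ℝ) (hadd : ∀ x y, p (x + y) ≤ p x + p y)
    (hsmul : ∀ (c : 𝕜) x, p (c • x) = ‖c‖ * p x) (a b : ℝ) (ha : 0 < a)
    (hlow : ∀ x, a * ‖x‖ ≤ p x) (hup : ∀ x, p x ≤ b * ‖x‖) :
    ∃ (F' : Type) (_ : NormedAddCommGroup F') (_ : NormedSpace 𝕜 F') (e : F' ≃L[𝕜] F),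
      ∀ y : F', ‖y‖ = p (e y) := by
  have h0 : p 0 = 0 := by
    have h := hsmul 0 0
    simpa using h
  have hneg : ∀ x, p (-x) = p x := by
    intro x
    have h := hsmul (-1) x
    simpa using h
  let N : AddGroupNorm (Cp F) :=
    { toFun := fun y => p (toCp 𝕜 F y)
      map_zero' := by rw [map_zero]; exact h0
      add_le' := fun x y => by rw [map_add]; exact hadd _ _
      neg' := fun x => by rw [map_neg]; exact hneg _
      eq_zero_of_map_eq_zero' := fun x hx => by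
        have h1 := hlow (toCp 𝕜 F x)
        have h2 : ‖toCp 𝕜 F x‖ ≤ 0 := by
          by_contra h
          push Not at h
          have h3 : 0 < a * ‖toCp 𝕜 F x‖ := mul_pos ha h
          have h4 : p (toCp 𝕜 F x) = 0 := hx
          linarith
        have h3 : toCp 𝕜 F x = 0 := norm_le_zero_iff.mp h2
        exact (LinearEquiv.map_eq_zero_iff _).mp h3 }
  let i1 : NormedAddCommGroup (Cp F) := N.toNormedAddCommGroup
  have hn : ∀ y : Cp F, ‖y‖ = p (toCp 𝕜 F y) := fun y => rfl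
  let i2 : NormedSpace 𝕜 (Cp F) :=
    { norm_smul_le := fun c x => by
        rw [hn, hn, map_smul, hsmul] }
  let e : Cp F ≃ₗ[𝕜] F := toCp 𝕜 F
  refine ⟨Cp F, i1, i2, LinearEquiv.toContinuousLinearEquivOfBounds e a⁻¹ b (fun x => ?_)
    (fun x => ?_), fun y => ?_⟩
  · have h1 := hlow (e x)
    rw [hn x]
    rw [inv_mul_eq_div, le_div_iff₀ ha]
    calc ‖e x‖ * a = a * ‖e x‖ := mul_comm _ _
      _ ≤ _ := h1
  · rw [hn]
    have h1 := hup x
    have h2 : toCp 𝕜 F (e.symm x) = x := e.apply_symm_apply x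
    rw [h2]
    exact h1
  · rfl

theorem pf_REN (𝕜 : Type) [RCLike 𝕜] : T_REN 𝕜 := by
  intro F _ _ φ M ε hM hε
  have hM0 : 0 ≤ M := (norm_nonneg _).trans (hM 0)
  have hb : ∀ y n, ‖φ n y‖ ≤ M * ‖y‖ := fun y n =>
    ((φ n).le_opNorm y).trans (mul_le_mul_of_nonneg_right (hM n) (norm_nonneg _))
  have hbd : ∀ y, BddAbove (Set.range fun n => ‖φ n y‖) := fun y =>
    ⟨M * ‖y‖, by rintro _ ⟨n, rfl⟩; exact hb y n⟩
  refine newnorm 𝕜 F (fun y => max (ε * ‖y‖) (⨆ n, ‖φ n y‖)) ?_ ?_ ε (ε + M) hε ?_ ?_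
  · intro x y
    refine max_le ?_ ?_
    · calc ε * ‖x + y‖ ≤ ε * (‖x‖ + ‖y‖) := mul_le_mul_of_nonneg_left (norm_add_le _ _) hε.le
        _ = ε * ‖x‖ + ε * ‖y‖ := mul_add _ _ _
        _ ≤ _ := add_le_add (le_max_left _ _) (le_max_left _ _)
    · refine ciSup_le fun n => ?_
      rw [map_add]
      exact (norm_add_le _ _).trans (add_le_add ((le_ciSup (hbd x) n).trans (le_max_right _ _))
        ((le_ciSup (hbd y) n).trans (le_max_right _ _)))
  · intro c x
    rw [mul_max_of_nonneg _ _ (norm_nonneg c), norm_smul, Real.mul_iSup_of_nonneg (norm_nonneg c)]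
    congr 1
    · ring
    · refine iSup_congr fun n => ?_
      rw [map_smul, smul_eq_mul, norm_mul]
  · intro x
    exact le_max_left _ _
  · intro x
    refine max_le ?_ (ciSup_le fun n => ?_)
    · nlinarith [mul_nonneg hM0 (norm_nonneg x)]
    · have := hb x n
      nlinarith [mul_nonneg hε.le (norm_nonneg x)]

end Pool.Agent.H42.WR
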