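import Mathlib
import Pool.Agent.H88.WR.Targets

/-!
Isomorphic spaces and compact operators.
-/

set_option autoImplicit false

open Filter Topology Set Pool.Agent.H85.WMP Pool.Agent.H88.WR

namespace Pool.Agent.H42.WR

theorem pf_ACI (𝕜 : Type) [RCLike 𝕜] : T_ACI 𝕜 := by
  intro E _ _ E' _ _ F _ _ F' _ _ ⟨e⟩ ⟨f⟩ h T
  have h1 := h (((f : F' →L[𝕜] F).comp T).comp (e.symm : E →L[𝕜] E'))
  have h2 := (h1.comp_clm (e : E' →L[𝕜] E)).clm_comp (f.symm : F →L[𝕜] F')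
  have h3 : (⇑(f.symm : F →L[𝕜] F') ∘ ⇑(((f : F' →L[𝕜] F).comp T).comp (e.symm : E →L[𝕜] E')) ∘
      ⇑(e : E' →L[𝕜] E)) = ⇑T := by
    funext x
    simp
  rw [h3] at h2
  exact h2

end Pool.Agent.H42.WR
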