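import Mathlib
import Pool.Agent.H88.WR.Targets

/-!
James' theorem: elementary properties of the sets of limits.
-/

set_option autoImplicit false

open Filter Topology Set Pool.Agent.H85.WMP Pool.Agent.H88.WR

namespace Pool.Agent.H42.WR

section

variable {𝕜 : Type} [RCLike 𝕜] {E : Type} [NormedAddCommGroup E] [NormedSpace 𝕜 E]

theorem re_bd {f : StrongDual 𝕜 E} (hf : ‖f‖ ≤ 1) (x : E) : |RCLike.re (f x)| ≤ ‖x‖ := by
  calc |RCLike.re (f x)| ≤ ‖f x‖ := RCLike.abs_re_le_norm _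
    _ ≤ ‖f‖ * ‖x‖ := f.le_opNorm x
    _ ≤ 1 * ‖x‖ := mul_le_mul_of_nonneg_right hf (norm_nonneg _)
    _ = ‖x‖ := one_mul _

theorem re_bdd {h : ℕ → StrongDual 𝕜 E} (hh : ∀ n, ‖h n‖ ≤ 1) (x : E) :
    IsBoundedUnder (· ≤ ·) atTop (fun n => RCLike.re (h n x)) :=
  isBoundedUnder_of ⟨‖x‖, fun n => (le_abs_self _).trans (re_bd (hh n) x)⟩

theorem re_bdd' {h : ℕ → StrongDual 𝕜 E} (hh : ∀ n, ‖h n‖ ≤ 1) (x : E) :
    IsBoundedUnder (· ≥ ·) atTop (fun n => RCLike.re (h n x)) :=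
  isBoundedUnder_of ⟨-‖x‖, fun n => (abs_le.mp (re_bd (hh n) x)).1⟩

theorem limsup_le' {h : ℕ → StrongDual 𝕜 E} (hh : ∀ n, ‖h n‖ ≤ 1) (x : E) (b : ℝ)
    (hb : ∀ᶠ n in atTop, RCLike.re (h n x) ≤ b) :
    limsup (fun n => RCLike.re (h n x)) atTop ≤ b :=
  limsup_le_of_le (re_bdd' hh x).isCoboundedUnder_le hb

theorem ev_lt {h : ℕ → StrongDual 𝕜 E} (hh : ∀ n, ‖h n‖ ≤ 1) (x : E) (b : ℝ)
    (hb : limsup (fun n => RCLike.re (h n x)) atTop < b) :
    ∀ᶠ n in atTop, RCLike.re (h n x) < b :=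
  eventually_lt_of_limsup_lt hb (re_bdd hh x)

/-- the limit along an ultrafilter -/
theorem ultra {h : ℕ → StrongDual 𝕜 E} (hh : ∀ n, ‖h n‖ ≤ 1) : ∃ w : StrongDual 𝕜 E,
    ∀ x, Tendsto (fun n => h n x) (hyperfilter ℕ : Filter ℕ) (𝓝 (w x)) := by
  have h1 : ∀ x : E, ∃ z : 𝕜, Tendsto (fun n => h n x) (hyperfilter ℕ : Filter ℕ) (𝓝 z) := by
    intro x
    have hc : IsCompact (Metric.closedBall (0 : 𝕜) ‖x‖) := isCompact_closedBall _ _
    have h2 : ((hyperfilter ℕ).map (fun n => h n x) : Filter 𝕜) ≤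
        𝓟 (Metric.closedBall (0 : 𝕜) ‖x‖) := by
      rw [le_principal_iff]
      refine Filter.mem_map.mpr (Filter.univ_mem' fun n => ?_)
      simp only [mem_preimage, mem_closedBall_zero_iff]
      calc ‖h n x‖ ≤ ‖h n‖ * ‖x‖ := (h n).le_opNorm x
        _ ≤ 1 * ‖x‖ := mul_le_mul_of_nonneg_right (hh n) (norm_nonneg _)
        _ = ‖x‖ := one_mul _
    obtain ⟨z, -, hz⟩ := hc.ultrafilter_le_nhds ((hyperfilter ℕ).map (fun n => h n x)) h2
    exact ⟨z, hz⟩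
  choose w hw using h1
  have hwb : ∀ x, ‖w x‖ ≤ 1 * ‖x‖ := by
    intro x
    refine le_of_tendsto (hw x).norm (Eventually.of_forall fun n => ?_)
    exact ((h n).le_opNorm x).trans (mul_le_mul_of_nonneg_right (hh n) (norm_nonneg _))
  let L : E →ₗ[𝕜] 𝕜 :=
    { toFun := w
      map_add' := fun x y => by
        refine tendsto_nhds_unique (hw (x + y)) ?_
        have := (hw x).add (hw y)
        simpa only [map_add] using this
      map_smul' := fun c x => by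
        refine tendsto_nhds_unique (hw (c • x)) ?_
        have := (hw x).const_smul c
        simp only [map_smul]
        exact this }
  exact ⟨L.mkContinuous 1 hwb, hw⟩

theorem ne {h : ℕ → StrongDual 𝕜 E} (hh : ∀ n, ‖h n‖ ≤ 1) : (Lm 𝕜 E h).Nonempty := by
  obtain ⟨w, hw⟩ := ultra hh
  refine ⟨w, fun x => ?_⟩
  refine le_of_forall_gt_imp_ge_of_dense fun b hb => ?_
  have h1 := ev_lt hh x b hb
  have h2 : Tendsto (fun n => RCLike.re (h n x)) (hyperfilter ℕ : Filter ℕ)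
      (𝓝 (RCLike.re (w x))) := (RCLike.continuous_re.tendsto _).comp (hw x)
  have h3 : (hyperfilter ℕ : Filter ℕ) ≤ atTop := by
    rw [← Nat.cofinite_eq_atTop]
    exact hyperfilter_le_cofinite
  exact le_of_tendsto h2 ((h1.filter_mono h3).mono fun n hn => hn.le)

theorem nrm {h : ℕ → StrongDual 𝕜 E} (hh : ∀ n, ‖h n‖ ≤ 1) {w : StrongDual 𝕜 E}
    (hw : w ∈ Lm 𝕜 E h) : ‖w‖ ≤ 1 := by
  have h1 : ∀ x, RCLike.re (w x) ≤ ‖x‖ := fun x =>
    (hw x).trans (limsup_le' hh x _ (Eventually.of_forall fun n =>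
      (le_abs_self _).trans (re_bd (hh n) x)))
  refine ContinuousLinearMap.opNorm_le_bound _ zero_le_one fun x => ?_
  rw [one_mul]
  by_cases h0 : w x = 0
  · rw [h0, norm_zero]; exact norm_nonneg _
  have h0' : ‖w x‖ ≠ 0 := norm_ne_zero_iff.mpr h0
  have h2 := h1 (((starRingEnd 𝕜) (w x) / (‖w x‖ : 𝕜)) • x)
  rw [map_smul, smul_eq_mul, norm_smul, norm_div, RCLike.norm_conj, RCLike.norm_ofReal,
    abs_of_nonneg (norm_nonneg _), div_self h0', one_mul, div_mul_eq_mul_div, mul_comm,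
    RCLike.mul_conj] at h2
  have h3 : (((‖w x‖ : ℝ) : 𝕜) ^ 2 / ((‖w x‖ : ℝ) : 𝕜)) = ((‖w x‖ : ℝ) : 𝕜) := by
    have h4 : ((‖w x‖ : ℝ) : 𝕜) ≠ 0 := RCLike.ofReal_ne_zero.mpr h0'
    field_simp
  rw [h3, RCLike.ofReal_re] at h2
  exact h2

theorem freq {h : ℕ → StrongDual 𝕜 E} (hh : ∀ n, ‖h n‖ ≤ 1) {w : StrongDual 𝕜 E}
    (hw : w ∈ Lm 𝕜 E h) (x : E) (ε : ℝ) (hε : 0 < ε) :
    ∃ᶠ n in atTop, RCLike.re (h n x) < RCLike.re (w x) + ε := by
  intro hcon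
  have h1 : ∀ᶠ n in atTop, RCLike.re (h n (-x)) ≤ -RCLike.re (w x) - ε := by
    filter_upwards [hcon] with n hn
    rw [map_neg, map_neg]
    push Not at hn
    linarith
  have h2 := (hw (-x)).trans (limsup_le' hh (-x) _ h1)
  rw [map_neg, map_neg] at h2
  linarith

theorem blk_trans {h g k : ℕ → StrongDual 𝕜 E} (h1 : Blk 𝕜 E h g) (h2 : Blk 𝕜 E g k) :
    Blk 𝕜 E h k := by
  intro n
  refine convexHull_min ?_ (convex_convexHull ℝ _) (h2 n)
  rintro _ ⟨i, hi, rfl⟩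
  refine convexHull_mono ?_ (h1 i)
  refine image_mono fun l hl => ?_
  have h3 : i ≤ l := hl
  have h4 : n ≤ i := hi
  exact h4.trans h3

theorem half (x : E) (b : ℝ) : Convex ℝ {u : StrongDual 𝕜 E | RCLike.re (u x) ≤ b} := by
  intro u hu v hv s t hs ht hst
  simp only [mem_ofPred_eq] at hu hv ⊢
  have h1 : RCLike.re ((s • u + t • v) x) = s * RCLike.re (u x) + t * RCLike.re (v x) := by
    rw [add_apply, map_add]
    congr 1
    · rw [smul_apply, RCLike.smul_re]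
    · rw [smul_apply, RCLike.smul_re]
  rw [h1]
  calc s * RCLike.re (u x) + t * RCLike.re (v x) ≤ s * b + t * b :=
        add_le_add (mul_le_mul_of_nonneg_left hu hs) (mul_le_mul_of_nonneg_left hv ht)
    _ = b := by rw [← add_mul, hst, one_mul]

theorem blk_lm {h g : ℕ → StrongDual 𝕜 E} (hh : ∀ n, ‖h n‖ ≤ 1) (hb : Blk 𝕜 E h g) :
    (∀ n, ‖g n‖ ≤ 1) ∧ Lm 𝕜 E g ⊆ Lm 𝕜 E h := by
  have hg : ∀ n, ‖g n‖ ≤ 1 := by
    intro n
    have h1 : g n ∈ Metric.closedBall (0 : StrongDual 𝕜 E) 1 := by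
      refine convexHull_min ?_ (convex_closedBall _ _) (hb n)
      rintro _ ⟨i, -, rfl⟩
      simpa using hh i
    simpa using h1
  refine ⟨hg, fun w hw x => (hw x).trans ?_⟩
  refine le_of_forall_gt_imp_ge_of_dense fun b hbb => ?_
  obtain ⟨n0, hn0⟩ := eventually_atTop.mp (ev_lt hh x b hbb)
  refine limsup_le' hg x b (eventually_atTop.mpr ⟨n0, fun n hn => ?_⟩)
  have h2 : g n ∈ {u : StrongDual 𝕜 E | RCLike.re (u x) ≤ b} := by
    refine convexHull_min ?_ (half x b) (hb n)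
    rintro _ ⟨i, hi, rfl⟩
    have h3 : n ≤ i := hi
    exact (hn0 i (le_trans hn h3)).le
  exact h2

end

theorem pf_JLM (𝕜 : Type) [RCLike 𝕜] : T_JLM 𝕜 := by
  intro E _ _
  refine ⟨fun h hh => ⟨ne hh, fun w hw => nrm hh hw, fun w hw x ε hε => freq hh hw x ε hε⟩,
    fun h g k h1 h2 => blk_trans h1 h2, fun h φ hφ n => ?_, fun h g hh hb => blk_lm hh hb⟩
  exact subset_convexHull ℝ _ ⟨φ n, hφ.le_apply, rfl⟩

end Pool.Agent.H42.WR
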