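import Mathlib
import Pool.Agent.H88.WR.Targets

/-!
Reflexivity is invariant under isomorphism.
-/

set_option autoImplicit false

open Filter Topology Set Pool.Agent.H85.WMP Pool.Agent.H88.WR

namespace Pool.Agent.H42.WR

theorem pf_RFI (𝕜 : Type) [RCLike 𝕜] : T_RFI 𝕜 := by
  intro E _ _ E' _ _ ⟨e⟩ hE Φ
  obtain ⟨z, hz⟩ := hE (Φ.comp ((ContinuousLinearMap.compL 𝕜 E' E 𝕜).flip (e : E' →L[𝕜] E)))
  refine ⟨e.symm z, ?_⟩
  ext g
  have h1 := congrArg (fun Ψ => Ψ (g.comp (e.symm : E →L[𝕜] E'))) hz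
  simp only [NormedSpace.dual_def, ContinuousLinearMap.comp_apply, ContinuousLinearMap.flip_apply,
    ContinuousLinearMap.compL_apply] at h1
  rw [NormedSpace.dual_def]
  have h2 : (g.comp (e.symm : E →L[𝕜] E')).comp (e : E' →L[𝕜] E) = g := by
    ext x
    simp
  rw [h2] at h1
  rw [← h1]
  rfl

end Pool.Agent.H42.WR
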